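import Pool.Agent.H24.SCG2.Stmts4
import Pool.Agent.H24.SCG2.Base3

/-!
Conics: all unipotent elements (module CON of the project SCG2).
-/

namespace Pool.Agent.H4.SCG2

open Pool.SCG Matrix

variable {F : Type} [Field F]

/-- The symmetric square of a two by two matrix, in the orthogonal group of `Th g`. -/
def PG (g : F) (A : M2 F) : M3 F :=
  !![A 0 0 ^ 2, -(g * (A 0 0 * A 0 1)), -(g * (A 0 1 ^ 2 * 2⁻¹));
    -(2 * g⁻¹ * (A 0 0 * A 1 0)), A 0 0 * A 1 1 + A 0 1 * A 1 0, A 0 1 * A 1 1;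
    -(2 * g⁻¹ * A 1 0 ^ 2), 2 * (A 1 0 * A 1 1), A 1 1 ^ 2]

theorem pg_mul {g : F} (h2 : (2 : F) ≠ 0) (hg : g ≠ 0) (A B : M2 F) :
    PG g (A * B) = PG g A * PG g B := by
  have e : ∀ i j, (A * B) i j = A i 0 * B 0 j + A i 1 * B 1 j := fun i j => by
    rw [Matrix.mul_apply, Fin.sum_univ_two]
  unfold PG
  simp only [e]
  generalize A 0 0 = a
  generalize A 0 1 = b
  generalize A 1 0 = c
  generalize A 1 1 = d
  generalize B 0 0 = a'
  generalize B 0 1 = b'
  generalize B 1 0 = c'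
  generalize B 1 1 = d'
  ext i j
  fin_cases i <;> fin_cases j <;>
    simp [Matrix.mul_apply, Fin.sum_univ_three] <;> field_simp <;> ring

theorem pg_one (g : F) : PG g 1 = 1 := by
  unfold PG
  ext i j
  fin_cases i <;> fin_cases j <;> simp

theorem pg_det {g : F} (h2 : (2 : F) ≠ 0) (hg : g ≠ 0) (A : M2 F) : (PG g A).det = A.det ^ 3 := by
  unfold PG
  rw [Matrix.det_fin_two]
  simp [Matrix.det_fin_three]
  field_simp
  ring

theorem th_det (g : F) : (Th g).det = -g := by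
  unfold Th
  simp [Matrix.det_fin_three]

/-- The transpose of the adjugate. -/
theorem pg_adj {g : F} (h2 : (2 : F) ≠ 0) (hg : g ≠ 0) (A : M2 F) :
    (PG g A.adjugate).transpose * Th g = Th g * PG g A := by
  rw [Matrix.adjugate_fin_two]
  unfold PG Th
  ext i j
  fin_cases i <;> fin_cases j <;>
    simp [Matrix.mul_apply, Fin.sum_univ_three] <;> field_simp <;> first | ring1 | (left; ring1) | simp

theorem pg_mul_adj {g : F} (h2 : (2 : F) ≠ 0) (hg : g ≠ 0) (A : M2 F) :
    PG g A * PG g A.adjugate = (A.det ^ 2) • (1 : M3 F) := by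
  rw [← pg_mul h2 hg, Matrix.mul_adjugate]
  unfold PG
  ext i j
  fin_cases i <;> fin_cases j <;> simp <;> ring

/-- The matrix of an element with sign. -/
def TP (g : F) (s : Bool) (A : M2 F) : M3 F := if s then Th g * PG g A else PG g A

theorem tp_det_ne {g : F} (h2 : (2 : F) ≠ 0) (hg : g ≠ 0) (s : Bool) (A : M2 F) (hA : A.det ≠ 0) :
    (TP g s A).det ≠ 0 := by
  unfold TP
  cases s with
  | false =>
    simp only [Bool.false_eq_true, if_false]
    rw [pg_det h2 hg]
    exact pow_ne_zero _ hA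
  | true =>
    simp only [if_true]
    rw [Matrix.det_mul, th_det, pg_det h2 hg]
    exact mul_ne_zero (neg_ne_zero.2 hg) (pow_ne_zero _ hA)

theorem tp_mul {g : F} (h2 : (2 : F) ≠ 0) (hg : g ≠ 0) {x y : MulAut (SL3 F)} {s t : Bool}
    {A B : M2 F} (hA : A.det ≠ 0) (hx : GIs x s (TP g s A)) (hy : GIs y t (TP g t B)) :
    GIs (x * y) (xor s t) (TP g (xor s t) (A * B)) := by
  have hd2 : A.det ^ 2 ≠ 0 := pow_ne_zero _ hA
  cases t with
  | false =>
    have h := hx.mul_inner hy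
    rw [Bool.xor_false]
    have e : TP g s A * TP g false B = TP g s (A * B) := by
      unfold TP
      rw [pg_mul h2 hg]
      cases s <;> simp [mul_assoc]
    rwa [e] at h
  | true =>
    cases s with
    | false =>
      have h3 : TP g false A * PG g A.adjugate = (A.det ^ 2) • (1 : M3 F) := pg_mul_adj h2 hg A
      have h := hx.mul_outer' hy h3 hd2
      have e : (PG g A.adjugate).transpose * TP g true B = TP g true (A * B) := by
        change (PG g A.adjugate).transpose * (Th g * PG g B) = Th g * PG g (A * B)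
        rw [← mul_assoc, pg_adj h2 hg, pg_mul h2 hg, mul_assoc]
      rw [e] at h
      exact h
    | true =>
      set Ti : M3 F := !![0, 0, 1; 0, g⁻¹, 0; 1, 0, 0] with hTi
      have ht : Th g * Ti = 1 := by
        unfold Th
        rw [hTi]
        ext i j
        fin_cases i <;> fin_cases j <;> simp [Matrix.mul_apply, Fin.sum_univ_three, hg]
      have ht2 : Ti.transpose * Th g = 1 := by
        unfold Th
        rw [hTi]
        ext i j
        fin_cases i <;> fin_cases j <;> simp [Matrix.mul_apply, Fin.sum_univ_three, hg]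
      have h3 : TP g true A * (PG g A.adjugate * Ti) = (A.det ^ 2) • (1 : M3 F) := by
        change Th g * PG g A * (PG g A.adjugate * Ti) = _
        rw [mul_assoc, ← mul_assoc (PG g A), pg_mul_adj h2 hg, Matrix.smul_mul, one_mul,
          Matrix.mul_smul, ht]
      have h := hx.mul_outer' hy h3 hd2
      have e : (PG g A.adjugate * Ti).transpose * TP g true B = TP g false (A * B) := by
        change (PG g A.adjugate * Ti).transpose * (Th g * PG g B) = PG g (A * B)
        rw [Matrix.transpose_mul, mul_assoc, ← mul_assoc (PG g A.adjugate).transpose,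
          pg_adj h2 hg, mul_assoc (Th g), ← mul_assoc Ti.transpose, ht2, one_mul, pg_mul h2 hg]
      rw [e] at h
      exact h

/-- The subgroup of `GL(2,F)`. -/
def XG (H : Subgroup (MulAut (SL3 F))) (g : F) (h2 : (2 : F) ≠ 0) (hg : g ≠ 0) :
    Subgroup (GL (Fin 2) F) where
  carrier := {h | ∃ x ∈ H, ∃ s : Bool, GIs x s (TP g s (h : M2 F))}
  one_mem' := ⟨1, H.one_mem, false, by
    change GIs 1 false (PG g (1 : M2 F))
    rw [pg_one]
    exact gis_one⟩
  mul_mem' := by
    rintro h h' ⟨x, hx, s, hs⟩ ⟨y, hy, t, ht⟩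
    have hd : (h : M2 F).det ≠ 0 := (Matrix.isUnit_iff_isUnit_det _).1 h.isUnit |>.ne_zero
    exact ⟨x * y, H.mul_mem hx hy, xor s t, tp_mul h2 hg hd hs ht⟩
  inv_mem' := by
    rintro h ⟨x, hx, s, hs⟩
    have hd : (h : M2 F).det ≠ 0 := (Matrix.isUnit_iff_isUnit_det _).1 h.isUnit |>.ne_zero
    have hd' : ((h⁻¹ : GL (Fin 2) F) : M2 F).det ≠ 0 :=
      (Matrix.isUnit_iff_isUnit_det _).1 (h⁻¹ : GL (Fin 2) F).isUnit |>.ne_zero
    obtain ⟨ε, hε⟩ := gis_exists s (TP g s ((h⁻¹ : GL (Fin 2) F) : M2 F))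
      (tp_det_ne h2 hg s _ hd')
    have h3 := tp_mul h2 hg hd hs hε
    rw [Bool.xor_self, ← Units.val_mul, mul_inv_cancel, Units.val_one] at h3
    have h4 : TP g false (1 : M2 F) = 1 := pg_one g
    rw [h4] at h3
    have h5 : x * ε = 1 := h3.ext gis_one 1 (by rw [one_smul])
    have h6 : ε = x⁻¹ := eq_inv_of_mul_eq_one_right h5
    exact ⟨ε, by rw [h6]; exact H.inv_mem hx, s, hε⟩

theorem mem_XG {H : Subgroup (MulAut (SL3 F))} {g : F} {h2 : (2 : F) ≠ 0} {hg : g ≠ 0}
    {h : GL (Fin 2) F} :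
    h ∈ XG H g h2 hg ↔ ∃ x ∈ H, ∃ s : Bool, GIs x s (TP g s (h : M2 F)) := Iff.rfl

theorem mk_coe (A : M2 F) (hA : A.det ≠ 0) :
    ((Matrix.GeneralLinearGroup.mkOfDetNeZero A hA : GL (Fin 2) F) : M2 F) = A := rfl

/-- Module CON. -/
theorem con_thm (hFTL : FTLStmt) : CONStmt := by
  intro F _ h2 hl H a c g u1 u2 u3 hg hu2 hu3 hne ha hc htor hcA haM x
  -- the torus
  have hT : ∀ l : F, l ≠ 0 → ∃ t ∈ XG H g h2 hg, ∃ c : F, c ≠ 0 ∧
      (t : M2 F) = c • !![l, 0; 0, 1] := by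
    intro l hl0
    have hd : (!![l, 0; 0, 1] : M2 F).det ≠ 0 := by
      simpa [Matrix.det_fin_two] using hl0
    obtain ⟨t, ht, hgt⟩ := htor l hl0
    refine ⟨Matrix.GeneralLinearGroup.mkOfDetNeZero !![l, 0; 0, 1] hd, ?_, 1, one_ne_zero, ?_⟩
    · rw [mem_XG]
      refine ⟨t, ht, false, ?_⟩
      rw [mk_coe]
      have e : TP g false (!![l, 0; 0, 1] : M2 F) = l • dg l 1 l⁻¹ := by
        change PG g _ = _
        unfold PG dg
        ext i j
        fin_cases i <;> fin_cases j <;> simp [hl0, pow_two]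
      rw [e]
      exact hgt.smul hl0
    · rw [mk_coe, one_smul]
  -- the involution
  have hx1d : (!![0, 2 * g⁻¹; 1, 0] : M2 F).det ≠ 0 := by
    simp [Matrix.det_fin_two, h2, hg]
  have hx1 : Matrix.GeneralLinearGroup.mkOfDetNeZero (!![0, 2 * g⁻¹; 1, 0] : M2 F) hx1d ∈
      XG H g h2 hg := by
    rw [mem_XG]
    refine ⟨c, hc, false, ?_⟩
    rw [mk_coe]
    have hk : -(2 * g⁻¹) ≠ 0 := neg_ne_zero.2 (mul_ne_zero h2 (inv_ne_zero hg))
    have e : TP g false (!![0, 2 * g⁻¹; 1, 0] : M2 F) = (-(2 * g⁻¹)) • An 1 := by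
      change PG g _ = _
      unfold PG An
      ext i j
      fin_cases i <;> fin_cases j <;> simp <;> field_simp
    rw [e]
    exact hcA.smul hk
  -- the element of `a`
  have hgd : (!![-u2, -(2 * u1 * g⁻¹); -u3, u2] : M2 F).det ≠ 0 := by
    rw [Matrix.det_fin_two]
    simp only [Matrix.of_apply, Matrix.cons_val', Matrix.cons_val_zero, Matrix.cons_val_one,
      Matrix.cons_val_fin_one]
    intro h0
    apply hne
    have h1 : g * (-u2 * u2 - -(2 * u1 * g⁻¹) * -u3) = 0 := by rw [h0, mul_zero]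
    field_simp at h1
    linear_combination -h1
  have hg0 : Matrix.GeneralLinearGroup.mkOfDetNeZero
      (!![-u2, -(2 * u1 * g⁻¹); -u3, u2] : M2 F) hgd ∈ XG H g h2 hg := by
    rw [mem_XG]
    refine ⟨a, ha, true, ?_⟩
    rw [mk_coe]
    have hk : (-g)⁻¹ ≠ 0 := inv_ne_zero (neg_ne_zero.2 hg)
    have e : TP g true (!![-u2, -(2 * u1 * g⁻¹); -u3, u2] : M2 F) =
        (-g)⁻¹ • MA g u1 u2 u3 := by
      change Th g * PG g _ = _
      unfold PG MA Th
      ext i j
      fin_cases i <;> fin_cases j <;>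
        simp [Matrix.mul_apply, Fin.sum_univ_three] <;> field_simp <;> ring
    rw [e]
    exact haM.smul hk
  obtain ⟨h, hX, c', hc', hh⟩ := hFTL F h2 hl (XG H g h2 hg) _ _ (2 * g⁻¹) 1 hT hx1 one_ne_zero
    (by rw [mk_coe, one_smul]) hg0
    (by rw [mk_coe]; simpa using hu2) (by rw [mk_coe]; simpa using hu3) (-(x * (2 * g)⁻¹))
  rw [mem_XG] at hX
  obtain ⟨y, hy, s, hs⟩ := hX
  have hd : (h : M2 F).det ≠ 0 := (Matrix.isUnit_iff_isUnit_det _).1 h.isUnit |>.ne_zero
  have h3 := tp_mul h2 hg hd hs hs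
  rw [Bool.xor_self, hh] at h3
  have e : TP g false (c' • !![1, -(x * (2 * g)⁻¹); 0, 1] * c' • !![1, -(x * (2 * g)⁻¹); 0, 1] :
      M2 F) = (c' ^ 4) • Ug g x := by
    change PG g _ = _
    unfold PG Ug
    ext i j
    fin_cases i <;> fin_cases j <;>
      simp [Matrix.mul_apply, Fin.sum_univ_two] <;> field_simp <;> ring
  rw [e] at h3
  have hc4 : c' ^ 4 ≠ 0 := pow_ne_zero _ hc'
  have h4 := h3.smul (inv_ne_zero hc4)
  rw [smul_smul, inv_mul_cancel₀ hc4, one_smul] at h4
  refine h4.inA (H.mul_mem hy hy) ?_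
  unfold Ug
  simp [Matrix.det_fin_three]

end Pool.Agent.H4.SCG2
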