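import Pool.Agent.H24.SCG2.Base3
import Pool.Agent.H64.SCG.IOT

/-!
The action of `Cor F` on `SL3 F`, modulo scalars (module IOTZ of the project SCG2).
-/

namespace Pool.Agent.H4.SCG2

open Pool.SCG Matrix Pool.Agent.H64.SCG

/-- Module IOTZ. -/
theorem iotz_thm : IOTZStmt := by
  intro F _
  refine ⟨?_, iota_inn, ?_, ?_⟩
  · apply le_antisymm
    · rintro e ⟨⟨m, s⟩, rfl⟩
      have hc : MulAut.conj m ∈ GraphExt F :=
        Subgroup.subset_closure (Or.inl ⟨m, rfl⟩)
      cases s with
      | false =>
        have : iota F (⟨m, false⟩ : Cor F) = MulAut.conj m := iota_inn m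
        rw [this]; exact hc
      | true =>
        rw [iota_outer]
        exact Subgroup.mul_mem _ (Subgroup.subset_closure (Or.inr rfl)) hc
    · rw [GraphExt, Subgroup.closure_le]
      rintro e (⟨m, rfl⟩ | h)
      · exact ⟨inn m, iota_inn m⟩
      · rw [Set.mem_singleton_iff] at h
        refine ⟨⟨1, true⟩, ?_⟩
        rw [iota_outer, h, map_one, mul_one]
  · rintro ⟨m, s⟩ h
    cases s with
    | true => exact absurd h (outer_ne_one m)
    | false =>
      have h1 : MulAut.conj m = 1 := by rw [← iota_inn m]; exact h
      have h2 : m ∈ Subgroup.center (SL3 F) := by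
        rw [Subgroup.mem_center_iff]
        intro g
        have h3 := congrArg (fun e : MulAut (SL3 F) => e g) h1
        simp only [MulAut.conj_apply, MulAut.one_apply] at h3
        calc g * m = (m * g * m⁻¹) * m := by rw [h3]
          _ = m * g := by rw [inv_mul_cancel_right]
      rw [Matrix.SpecialLinearGroup.mem_center_iff] at h2
      obtain ⟨r, hr, hm⟩ := h2
      rw [Fintype.card_fin] at hr
      refine ⟨r, hr, rfl, ?_⟩
      change (m : M3 F) = dg r r r
      rw [← hm]
      ext i j
      fin_cases i <;> fin_cases j <;> simp [dg]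
  · rintro z ⟨r, hr, hs, hm⟩
    have h1 : z = inn z.m := by
      apply Cor.ext
      · rfl
      · exact hs
    rw [h1, iota_inn]
    ext g : 1
    rw [MulAut.conj_apply, MulAut.one_apply]
    have h2 : z.m * g = g * z.m := by
      apply Subtype.ext
      rw [Matrix.SpecialLinearGroup.coe_mul, Matrix.SpecialLinearGroup.coe_mul]
      have h3 : (z.m : M3 F) = dg r r r := hm
      have h4 : dg r r r = r • (1 : M3 F) := by
        ext i j
        fin_cases i <;> fin_cases j <;> simp [dg]
      rw [h3, h4, Matrix.smul_mul, Matrix.mul_smul, one_mul, mul_one]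
    rw [h2, mul_inv_cancel_right]

end Pool.Agent.H4.SCG2
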